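import Pool.Agent.H96.RX.Rk

/-!
Closures for clauses (helper27; project MP_28250c_RX, second hand-in).  `Z S` is the subspace of the vectors vanishing on
the set `S` of coordinates; the projection of `W` to the coordinates `S` has dimension
`finrank W - finrank (W ⊓ Z S)`.
-/

set_option autoImplicit false
open scoped Classical

namespace H27RG

open H96RX Module

variable {n : ℕ}

theorem Z_union (S T : Finset (Fin n)) : Z (S ∪ T) = Z S ⊓ Z T := by
  ext x
  constructor
  · intro h
    exact ⟨fun i hi => h i (Finset.mem_union_left _ hi), fun i hi => h i (Finset.mem_union_right _ hi)⟩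
  · rintro ⟨h1, h2⟩ i hi
    rcases Finset.mem_union.mp hi with h | h
    · exact h1 i h
    · exact h2 i h

theorem Z_empty : Z (∅ : Finset (Fin n)) = ⊤ := by
  rw [eq_top_iff]
  intro x _ i hi
  exact absurd hi (Finset.notMem_empty i)

/-- the restriction to the coordinates in `S` -/
def res (S : Finset (Fin n)) : (Fin n → ZMod 2) →ₗ[ZMod 2] (S → ZMod 2) where
  toFun x := fun i => x i
  map_add' _ _ := rfl
  map_smul' _ _ := rfl

theorem ker_res (S : Finset (Fin n)) : LinearMap.ker (res S) = Z S := by
  ext x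
  rw [LinearMap.mem_ker]
  constructor
  · intro h i hi
    exact congrFun h ⟨i, hi⟩
  · intro h
    funext i
    exact h i.1 i.2

theorem res_surj (S : Finset (Fin n)) : Function.Surjective (res S) := by
  intro y
  refine ⟨fun i => if h : i ∈ S then y ⟨i, h⟩ else 0, ?_⟩
  funext i
  show (if h : (i : Fin n) ∈ S then y ⟨i, h⟩ else 0) = y i
  rw [dif_pos i.2]

theorem finrank_Z (S : Finset (Fin n)) : finrank (ZMod 2) (Z S) + S.card = n := by
  have h := LinearMap.finrank_range_add_finrank_ker (res S)
  rw [LinearMap.range_eq_top.2 (res_surj S), finrank_top, finrank_fintype_fun_eq_card,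
    finrank_fintype_fun_eq_card, Fintype.card_coe, Fintype.card_fin, ker_res] at h
  omega

theorem finrank_le (W : Submodule (ZMod 2) (Fin n → ZMod 2)) : finrank (ZMod 2) W ≤ n := by
  have h := Submodule.finrank_le W
  rwa [finrank_fintype_fun_eq_card, Fintype.card_fin] at h

variable {J : Type} [Fintype J]

/-- the variables of the clauses in `T` -/
def vars (S : J → Finset (Fin n)) (T : Finset J) : Finset (Fin n) := T.biUnion S

theorem vars_insert (S : J → Finset (Fin n)) (T : Finset J) (j : J) :
    vars S (insert j T) = vars S T ∪ S j := by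
  unfold vars
  rw [Finset.biUnion_insert, Finset.union_comm]

/-- **Closure.** -/
theorem closure (S : J → Finset (Fin n)) {B c g : ℕ}
    (hexp : ∀ T : Finset J, T.card ≤ B → (c + g) * T.card ≤ (vars S T).card)
    (W : Submodule (ZMod 2) (Fin n → ZMod 2)) (hW : n < finrank (ZMod 2) W + g * B) :
    ∃ T : Finset J, T.card < B ∧ finrank (ZMod 2) W + g * T.card ≤ n ∧
      ∀ j, j ∉ T → finrank (ZMod 2) ↥(W ⊓ Z (vars S T) ⊓ Z (S j)) + (c + 1) ≤
        finrank (ZMod 2) ↥(W ⊓ Z (vars S T)) := by
  obtain ⟨A, hA⟩ : ∃ A : Finset (Finset J), A = Finset.univ.filter (fun T : Finset J => T.card ≤ B ∧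
    finrank (ZMod 2) W ≤ finrank (ZMod 2) ↥(W ⊓ Z (vars S T)) + c * T.card) := ⟨_, rfl⟩
  have hmem : ∀ T, T ∈ A ↔ T.card ≤ B ∧
      finrank (ZMod 2) W ≤ finrank (ZMod 2) ↥(W ⊓ Z (vars S T)) + c * T.card := by
    intro T
    rw [hA, Finset.mem_filter]
    exact ⟨fun h => h.2, fun h => ⟨Finset.mem_univ _, h⟩⟩
  have h0 : (∅ : Finset J) ∈ A := by
    rw [hmem]
    refine ⟨by simp, ?_⟩
    have : vars S (∅ : Finset J) = ∅ := by unfold vars; rw [Finset.biUnion_empty]
    rw [this, Z_empty, inf_top_eq]
    exact Nat.le_add_right _ _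
  obtain ⟨T, hT, hmax⟩ := Finset.exists_max_image A Finset.card ⟨∅, h0⟩
  have hT' := (hmem T).1 hT
  have hZ : finrank (ZMod 2) ↥(W ⊓ Z (vars S T)) ≤ finrank (ZMod 2) (Z (vars S T)) :=
    Submodule.finrank_mono inf_le_right
  have hZ' := finrank_Z (vars S T)
  have hx := hexp T hT'.1
  have hd : (c + g) * T.card = c * T.card + g * T.card := by ring
  have hsum : finrank (ZMod 2) W + g * T.card ≤ n := by omega
  have hlt : T.card < B := by
    by_contra hcon
    have h1 : g * B ≤ g * T.card := Nat.mul_le_mul_left _ (not_lt.1 hcon)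
    omega
  refine ⟨T, hlt, hsum, fun j hj => ?_⟩
  by_contra hcon
  push Not at hcon
  have hc : (insert j T).card = T.card + 1 := Finset.card_insert_of_notMem hj
  have hin : insert j T ∈ A := by
    rw [hmem]
    refine ⟨by omega, ?_⟩
    rw [vars_insert, Z_union, ← inf_assoc, hc]
    have : c * (T.card + 1) = c * T.card + c := by ring
    omega
  have := hmax _ hin
  omega

end H27RG
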