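import Pool.Agent.H27.RG.Clo
import Pool.Agent.H96.RX.Dag

/-!
The lower bound for expanding CNFs (helper27; project MP_28250c_RX, second hand-in), from the covering theorem
`H96RX.dag`.
-/

set_option autoImplicit false
open scoped Classical

namespace H27RG

open H96RX Module

variable {n : ℕ}

/-- the points at which the clause with variables `S` and signs `s` is false -/
def fal (S : Finset (Fin n)) (s : Fin n → ZMod 2) : Set (Fin n → ZMod 2) := {x | ∀ i ∈ S, x i = s i}

/-- a clause is rarely false on a coset of `Wb` if many of its variables are free there -/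
theorem count_fal (Wb : Submodule (ZMod 2) (Fin n → ZMod 2)) (S : Finset (Fin n)) (s x : Fin n → ZMod 2)
    {c : ℕ} (h : finrank (ZMod 2) ↥(Wb ⊓ Z S) + (c + 1) ≤ finrank (ZMod 2) Wb) :
    Nat.card {w : Wb // x + (w : Fin n → ZMod 2) ∈ fal S s} * 2 ^ (c + 1) ≤ Nat.card Wb := by
  have hW : Nat.card Wb = 2 ^ finrank (ZMod 2) Wb := by
    have := Module.natCard_eq_pow_finrank (K := ZMod 2) (V := Wb)
    rwa [Nat.card_zmod] at this
  have hI : Nat.card ↥(Wb ⊓ Z S) = 2 ^ finrank (ZMod 2) ↥(Wb ⊓ Z S) := by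
    have := Module.natCard_eq_pow_finrank (K := ZMod 2) (V := ↥(Wb ⊓ Z S))
    rwa [Nat.card_zmod] at this
  have key : Nat.card {w : Wb // x + (w : Fin n → ZMod 2) ∈ fal S s} ≤ Nat.card ↥(Wb ⊓ Z S) := by
    by_cases hne : Nonempty {w : Wb // x + (w : Fin n → ZMod 2) ∈ fal S s}
    · obtain ⟨w0⟩ := hne
      refine Nat.card_le_card_of_injective
        (fun w => (⟨(w.1 : Fin n → ZMod 2) - (w0.1 : Fin n → ZMod 2),
          Wb.sub_mem w.1.2 w0.1.2, fun i hi => ?_⟩ : ↥(Wb ⊓ Z S))) ?_
      · have h1 := w.2 i hi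
        have h2 := w0.2 i hi
        rw [Pi.add_apply] at h1 h2
        rw [Pi.sub_apply]
        have h3 : (w.1 : Fin n → ZMod 2) i = s i - x i := by rw [← h1]; ring
        have h4 : (w0.1 : Fin n → ZMod 2) i = s i - x i := by rw [← h2]; ring
        rw [h3, h4, sub_self]
      · intro w w' hww
        have h1 := congrArg Subtype.val hww
        have h2 : (w.1 : Fin n → ZMod 2) = (w'.1 : Fin n → ZMod 2) := sub_left_injective h1
        exact Subtype.ext (Subtype.ext h2)
    · rw [not_nonempty_iff] at hne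
      rw [Nat.card_of_isEmpty]
      exact Nat.zero_le _
  calc Nat.card {w : Wb // x + (w : Fin n → ZMod 2) ∈ fal S s} * 2 ^ (c + 1)
      ≤ 2 ^ finrank (ZMod 2) ↥(Wb ⊓ Z S) * 2 ^ (c + 1) := by
        rw [← hI]; exact Nat.mul_le_mul_right _ key
    _ = 2 ^ (finrank (ZMod 2) ↥(Wb ⊓ Z S) + (c + 1)) := (pow_add _ _ _).symm
    _ ≤ 2 ^ finrank (ZMod 2) Wb := Nat.pow_le_pow_right (by norm_num) h
    _ = Nat.card Wb := hW.symm

/-- the kinds of lines: the false set is contained in an affine subspace of codimension at least `m`, or it is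
invariant under a subspace of codimension less than `m` -/
def LineOK (m : ℕ) (A : Set (Fin n → ZMod 2)) : Prop :=
  ∃ (W : Submodule (ZMod 2) (Fin n → ZMod 2)) (x0 : Fin n → ZMod 2),
    (finrank (ZMod 2) W + m ≤ n ∧ ∀ x ∈ A, x - x0 ∈ W) ∨
    (n < finrank (ZMod 2) W + m ∧ ∀ x ∈ A, ∀ w ∈ W, x + w ∈ A)

variable {J : Type} [Fintype J]

theorem thmG {α d f B c g N : ℕ} (hα : 2 ≤ α) (hg : 1 ≤ g) (S : J → Finset (Fin n))
    (s : J → Fin n → ZMod 2)
    (hexp : ∀ T : Finset J, T.card ≤ B → (c + g) * T.card ≤ (vars S T).card)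
    (hun : f * B * 2 ^ d ≤ 2 ^ (c + 1)) (L : ℕ → Set (Fin n → ZMod 2))
    (hL : ∀ i < N, LineOK (g * B) (L i))
    (hstep : ∀ i < N, (∃ j, L i ⊆ fal (S j) (s j)) ∨
      ∃ P : Finset ℕ, P.card ≤ f ∧ (∀ p ∈ P, p < i) ∧ ∀ x ∈ L i, ∃ p ∈ P, x ∈ L p)
    (hlast : ∃ i < N, L i = Set.univ) (hm : 1 ≤ B) :
    1 ≤ (N : ℝ) * ((1 - (1 / 2 : ℝ) ^ α) ^ (g * B) + (1 / 2 : ℝ) ^ (d * α)) := by
  have hn : finrank (ZMod 2) (Fin n → ZMod 2) = n := by
    rw [finrank_fintype_fun_eq_card, Fintype.card_fin]
  have hL' : ∀ i, ∃ (W : Submodule (ZMod 2) (Fin n → ZMod 2)) (x0 : Fin n → ZMod 2), i < N →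
      (((finrank (ZMod 2) W + g * B ≤ n ∧ ∀ x ∈ L i, x - x0 ∈ W) ∨
      (n < finrank (ZMod 2) W + g * B ∧ ∀ x ∈ L i, ∀ w ∈ W, x + w ∈ L i)) ∧
      (L i = Set.univ → W = ⊤)) := by
    intro i
    by_cases hi : i < N
    · by_cases hu : L i = Set.univ
      · refine ⟨⊤, 0, fun _ => ⟨Or.inr ⟨?_, fun x _ w _ => ?_⟩, fun _ => rfl⟩⟩
        · rw [finrank_top, hn]
          have : 1 * 1 ≤ g * B := Nat.mul_le_mul hg hm
          omega
        · rw [hu]
          exact Set.mem_univ _
      · obtain ⟨W, x0, h⟩ := hL i hi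
        exact ⟨W, x0, fun _ => ⟨h, fun h' => absurd h' hu⟩⟩
    · exact ⟨⊤, 0, fun h => absurd h hi⟩
  choose W x0 hW' using hL'
  have hW : ∀ i, i < N → ((finrank (ZMod 2) (W i) + g * B ≤ n ∧ ∀ x ∈ L i, x - x0 i ∈ W i) ∨
      (n < finrank (ZMod 2) (W i) + g * B ∧ ∀ x ∈ L i, ∀ w ∈ W i, x + w ∈ L i)) :=
    fun i hi => (hW' i hi).1
  have hT' : ∀ i, ∃ T : Finset J, n < finrank (ZMod 2) (W i) + g * B →
      (T.card < B ∧ finrank (ZMod 2) (W i) + g * T.card ≤ n ∧
      ∀ j, j ∉ T → finrank (ZMod 2) ↥(W i ⊓ Z (vars S T) ⊓ Z (S j)) + (c + 1) ≤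
        finrank (ZMod 2) ↥(W i ⊓ Z (vars S T))) := by
    intro i
    by_cases hi : n < finrank (ZMod 2) (W i) + g * B
    · obtain ⟨T, hT⟩ := closure S hexp (W i) hi
      exact ⟨T, fun _ => hT⟩
    · exact ⟨∅, fun h => absurd h hi⟩
  choose T hT using hT'
  obtain ⟨D, hD⟩ : ∃ D : ℕ → Set (Fin n → ZMod 2), ∀ i x, x ∈ D i ↔
      (x ∈ L i ∧ (n < finrank (ZMod 2) (W i) + g * B → ∀ j ∈ T i, x ∉ fal (S j) (s j))) :=
    ⟨fun i => {x | x ∈ L i ∧ (n < finrank (ZMod 2) (W i) + g * B → ∀ j ∈ T i, x ∉ fal (S j) (s j))},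
      fun _ _ => Iff.rfl⟩
  refine dag (V := Fin n → ZMod 2) hα D
    (fun i => if n < finrank (ZMod 2) (W i) + g * B then ⊤ else W i) x0 ?_ ?_ ?_
  · intro i hi x hx
    by_cases hb : n < finrank (ZMod 2) (W i) + g * B
    · simp only [if_pos hb]
      exact Submodule.mem_top
    · simp only [if_neg hb]
      rcases hW i hi with h | h
      · exact h.2 x ((hD i x).1 hx).1
      · exact absurd h.1 hb
  · intro i hi
    by_cases hb : n < finrank (ZMod 2) (W i) + g * B
    · right
      have hinv : ∀ x ∈ L i, ∀ w ∈ W i, x + w ∈ L i := by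
        rcases hW i hi with h | h
        · exact absurd h.1 (by omega)
        · exact h.2
      obtain ⟨hT1, hT2, hT3⟩ := hT i hb
      refine ⟨W i ⊓ Z (vars S (T i)), ?_, ?_, ?_⟩
      · simp only [if_pos hb]
        exact le_top
      · intro x hx w hw
        rw [hD] at hx ⊢
        refine ⟨hinv x hx.1 w hw.1, fun _ j hj hxw => hx.2 hb j hj fun k hk => ?_⟩
        have h1 := hxw k hk
        have h2 : w k = 0 := hw.2 k (Finset.mem_biUnion.2 ⟨j, hj, hk⟩)
        rw [Pi.add_apply, h2, add_zero] at h1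
        exact h1
      · intro x hx
        have hx' := (hD i x).1 hx
        rcases hstep i hi with ⟨j, hj⟩ | ⟨P, hP, hPi, hcov⟩
        · exfalso
          by_cases hjT : j ∈ T i
          · exact hx'.2 hb j hjT (hj hx'.1)
          · have h1 := hT3 j hjT
            have h2 : W i ⊓ Z (vars S (T i)) ⊓ Z (S j) = W i ⊓ Z (vars S (T i)) := by
              refine inf_eq_left.2 fun w hw k hk => ?_
              have h3 := hj (hinv x hx'.1 w hw.1) k hk
              have h4 := hj hx'.1 k hk
              rw [Pi.add_apply, h4] at h3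
              exact add_eq_left.1 h3
            rw [h2] at h1
            omega
        · -- the counting
          let _ : Fintype ↥(W i ⊓ Z (vars S (T i))) := Fintype.ofFinite _
          obtain ⟨C, hC⟩ : ∃ C : ℕ, C = Nat.card ↥(W i ⊓ Z (vars S (T i))) := ⟨_, rfl⟩
          have hcnt : ∀ j, j ∉ T i → (Finset.univ.filter fun w : ↥(W i ⊓ Z (vars S (T i))) =>
              x + (w : Fin n → ZMod 2) ∈ fal (S j) (s j)).card * 2 ^ (c + 1) ≤ C := by
            intro j hj
            have h1 := count_fal (W i ⊓ Z (vars S (T i))) (S j) (s j) x (hT3 j hj)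
            rw [← hC, Nat.card_eq_fintype_card, Fintype.card_subtype] at h1
            exact h1
          have hsub : (Finset.univ.filter fun w : ↥(W i ⊓ Z (vars S (T i))) =>
              ∀ k < i, x + (w : Fin n → ZMod 2) ∉ D k) ⊆
              (P.filter fun p => n < finrank (ZMod 2) (W p) + g * B).biUnion fun p =>
                ((T p).filter fun j => j ∉ T i).biUnion fun j =>
                  Finset.univ.filter fun w : ↥(W i ⊓ Z (vars S (T i))) =>
                    x + (w : Fin n → ZMod 2) ∈ fal (S j) (s j) := by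
            intro w hw
            rw [Finset.mem_filter] at hw
            have hxL : x + (w : Fin n → ZMod 2) ∈ L i := hinv x hx'.1 _ w.2.1
            obtain ⟨p, hp, hxp⟩ := hcov _ hxL
            have h1 := hw.2 p (hPi p hp)
            rw [hD] at h1
            push Not at h1
            obtain ⟨h2, j, hj, hj2⟩ := h1 hxp
            have hjT : j ∉ T i := by
              intro hjT
              refine hx'.2 hb j hjT fun k hk => ?_
              have h3 := hj2 k hk
              have h4 : (w : Fin n → ZMod 2) k = 0 := w.2.2 k (Finset.mem_biUnion.2 ⟨j, hjT, hk⟩)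
              rw [Pi.add_apply, h4, add_zero] at h3
              exact h3
            rw [Finset.mem_biUnion]
            refine ⟨p, Finset.mem_filter.2 ⟨hp, h2⟩, ?_⟩
            rw [Finset.mem_biUnion]
            exact ⟨j, Finset.mem_filter.2 ⟨hj, hjT⟩, Finset.mem_filter.2 ⟨Finset.mem_univ _, hj2⟩⟩
          have hinner : ∀ p ∈ P.filter (fun p => n < finrank (ZMod 2) (W p) + g * B),
              (((T p).filter fun j => j ∉ T i).biUnion fun j =>
                  Finset.univ.filter fun w : ↥(W i ⊓ Z (vars S (T i))) =>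
                    x + (w : Fin n → ZMod 2) ∈ fal (S j) (s j)).card * 2 ^ (c + 1) ≤ B * C := by
            intro p hp
            have hp' := (Finset.mem_filter.1 hp).2
            have h1 : ((T p).filter fun j => j ∉ T i).card ≤ B :=
              (Finset.card_filter_le _ _).trans (hT p hp').1.le
            calc _ ≤ (∑ j ∈ (T p).filter (fun j => j ∉ T i),
                  (Finset.univ.filter fun w : ↥(W i ⊓ Z (vars S (T i))) =>
                    x + (w : Fin n → ZMod 2) ∈ fal (S j) (s j)).card) * 2 ^ (c + 1) :=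
                  Nat.mul_le_mul_right _ Finset.card_biUnion_le
              _ = ∑ j ∈ (T p).filter (fun j => j ∉ T i),
                  (Finset.univ.filter fun w : ↥(W i ⊓ Z (vars S (T i))) =>
                    x + (w : Fin n → ZMod 2) ∈ fal (S j) (s j)).card * 2 ^ (c + 1) :=
                  Finset.sum_mul _ _ _
              _ ≤ ∑ _j ∈ (T p).filter (fun j => j ∉ T i), C :=
                  Finset.sum_le_sum fun j hj => hcnt j (Finset.mem_filter.1 hj).2
              _ = ((T p).filter fun j => j ∉ T i).card * C := by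
                  rw [Finset.sum_const, smul_eq_mul]
              _ ≤ B * C := Nat.mul_le_mul_right _ h1
          have houter : (Finset.univ.filter fun w : ↥(W i ⊓ Z (vars S (T i))) =>
              ∀ k < i, x + (w : Fin n → ZMod 2) ∉ D k).card * 2 ^ (c + 1) ≤ f * B * C := by
            calc _ ≤ ((P.filter fun p => n < finrank (ZMod 2) (W p) + g * B).biUnion fun p =>
                ((T p).filter fun j => j ∉ T i).biUnion fun j =>
                  Finset.univ.filter fun w : ↥(W i ⊓ Z (vars S (T i))) =>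
                    x + (w : Fin n → ZMod 2) ∈ fal (S j) (s j)).card * 2 ^ (c + 1) :=
                  Nat.mul_le_mul_right _ (Finset.card_le_card hsub)
              _ ≤ (∑ p ∈ P.filter (fun p => n < finrank (ZMod 2) (W p) + g * B),
                (((T p).filter fun j => j ∉ T i).biUnion fun j =>
                  Finset.univ.filter fun w : ↥(W i ⊓ Z (vars S (T i))) =>
                    x + (w : Fin n → ZMod 2) ∈ fal (S j) (s j)).card) * 2 ^ (c + 1) :=
                  Nat.mul_le_mul_right _ Finset.card_biUnion_le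
              _ = ∑ p ∈ P.filter (fun p => n < finrank (ZMod 2) (W p) + g * B),
                (((T p).filter fun j => j ∉ T i).biUnion fun j =>
                  Finset.univ.filter fun w : ↥(W i ⊓ Z (vars S (T i))) =>
                    x + (w : Fin n → ZMod 2) ∈ fal (S j) (s j)).card * 2 ^ (c + 1) :=
                  Finset.sum_mul _ _ _
              _ ≤ ∑ _p ∈ P.filter (fun p => n < finrank (ZMod 2) (W p) + g * B), B * C :=
                  Finset.sum_le_sum hinner
              _ = (P.filter fun p => n < finrank (ZMod 2) (W p) + g * B).card * (B * C) := by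
                  rw [Finset.sum_const, smul_eq_mul]
              _ ≤ f * (B * C) :=
                  Nat.mul_le_mul_right _ ((Finset.card_filter_le _ _).trans hP)
              _ = f * B * C := (mul_assoc _ _ _).symm
          rw [← hC, Nat.card_eq_fintype_card, Fintype.card_subtype]
          have h5 : 2 ^ (c + 1) * (2 ^ d * (Finset.univ.filter fun w : ↥(W i ⊓ Z (vars S (T i))) =>
              ∀ k < i, x + (w : Fin n → ZMod 2) ∉ D k).card) ≤ 2 ^ (c + 1) * C := by
            calc _ = 2 ^ d * ((Finset.univ.filter fun w : ↥(W i ⊓ Z (vars S (T i))) =>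
                  ∀ k < i, x + (w : Fin n → ZMod 2) ∉ D k).card * 2 ^ (c + 1)) := by ring
              _ ≤ 2 ^ d * (f * B * C) := Nat.mul_le_mul_left _ houter
              _ = f * B * 2 ^ d * C := by ring
              _ ≤ 2 ^ (c + 1) * C := Nat.mul_le_mul_right _ hun
          exact Nat.le_of_mul_le_mul_left h5 (by positivity)
    · left
      have h1 : (if n < finrank (ZMod 2) (W i) + g * B then
          (⊤ : Submodule (ZMod 2) (Fin n → ZMod 2)) else W i) = W i := if_neg hb
      rw [h1, hn]
      omega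
  · obtain ⟨i, hi, hLi⟩ := hlast
    refine ⟨i, hi, ?_⟩
    rw [Set.eq_univ_iff_forall]
    intro x
    rw [hD]
    refine ⟨by rw [hLi]; exact Set.mem_univ x, fun hb j hj => ?_⟩
    exfalso
    obtain ⟨-, h1, -⟩ := hT i hb
    rw [(hW' i hi).2 hLi, finrank_top, hn] at h1
    have h2 : 1 ≤ (T i).card := Finset.card_pos.2 ⟨j, hj⟩
    have h3 : 1 * 1 ≤ g * (T i).card := Nat.mul_le_mul hg h2
    omega

end H27RG
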